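import Pool.Agent.Y672.DM.FDef
import Pool.Agent.Y672.DM.Theta

/-!
# The constant terms of the theta integrals vanish
-/

set_option autoImplicit false

open Complex MeasureTheory

namespace Pool.Agent.Y96.DMF

open scoped Real
open Pool.Agent.Y672.DM

lemma irr_zero {r : ℝ} (hr : Irrational r) {m n : ℤ} (h : (m : ℝ) + n * r = 0) :
    m = 0 ∧ n = 0 := by
  have hn : n = 0 := by
    by_contra hn
    refine (hr.intCast_mul hn).ne_int (-m) ?_
    push_cast
    linarith
  subst hn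
  simp only [Int.cast_zero, zero_mul, add_zero, Int.cast_eq_zero] at h
  exact ⟨h, rfl⟩

lemma nm_eq_zero {p : ℤ × ℤ} (h : nm p = 0) : p = 0 := by
  have h1 := em_mul p
  rw [h, Int.cast_zero] at h1
  rcases mul_eq_zero.1 h1 with h2 | h2
  · obtain ⟨h3, h4⟩ := irr_zero Real.goldenRatio_irrational h2
    exact Prod.ext h3 h4
  · obtain ⟨h3, h4⟩ := irr_zero Real.goldenConj_irrational h2
    exact Prod.ext h3 h4

lemma log_pos : 0 < Real.log Real.goldenRatio := Real.log_pos Real.one_lt_goldenRatio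

lemma PP_pos : 0 < PP := by
  have := log_pos
  unfold PP
  positivity

lemma t0_PP : t0 * PP = 2 * π := by
  have := log_pos
  unfold t0 PP
  field_simp
  ring

lemma t0_ne : t0 ≠ 0 := by
  intro h
  have h1 := t0_PP
  rw [h, zero_mul] at h1
  have := Real.pi_pos
  linarith

/-- the modulus of the Gaussian -/
noncomputable def rx (y v : ℝ) (p : ℤ × ℤ) : ℂ :=
  cexp (-(π * y / 5 * (em p ^ 2 * Real.exp v + em' p ^ 2 * Real.exp (-v)) : ℝ))

lemma ex_split (x y v : ℝ) (p : ℤ × ℤ) :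
    ex ((x : ℂ) + y * I) v p = cexp (2 * π * I * nm p / 5 * x) * rx y v p := by
  unfold ex rx
  rw [← Complex.exp_add]
  congr 1
  have e1 : ((x : ℂ) + y * I).re = x := by simp
  have e2 : ((x : ℂ) + y * I).im = y := by simp
  rw [e1, e2]
  push_cast
  ring

/-- the Gaussian majorant -/
noncomputable def GG (y : ℝ) (p : ℤ × ℤ) : ℝ :=
  Real.exp (-π * p.1 ^ 2 * (y / 5 * Real.exp (-PP))) *
    Real.exp (-π * p.2 ^ 2 * (y / 5 * Real.exp (-PP)))

lemma ex_le {x y v : ℝ} (hy : 0 < y) (hv : |v| ≤ PP) (p : ℤ × ℤ) :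
    ‖ex ((x : ℂ) + y * I) v p‖ ≤ GG y p := by
  have e2 : ((x : ℂ) + y * I).im = y := by simp
  refine (norm_ex_le (z := (x : ℂ) + y * I) (by rw [e2]; exact hy) v p).trans ?_
  rw [e2]
  unfold GG
  have h1 : y / 5 * Real.exp (-PP) ≤ y / 5 * Real.exp (-|v|) :=
    mul_le_mul_of_nonneg_left (Real.exp_le_exp.2 (by linarith)) (by positivity)
  have h2 : ∀ m : ℤ, Real.exp (-π * m ^ 2 * (y / 5 * Real.exp (-|v|))) ≤
      Real.exp (-π * m ^ 2 * (y / 5 * Real.exp (-PP))) := by
    intro m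
    apply Real.exp_le_exp.2
    have h3 : 0 ≤ π * (m : ℝ) ^ 2 := by positivity
    nlinarith [mul_le_mul_of_nonneg_left h1 h3]
  exact mul_le_mul (h2 _) (h2 _) (Real.exp_pos _).le (Real.exp_pos _).le

lemma rx_le {y v : ℝ} (hy : 0 < y) (hv : |v| ≤ PP) (p : ℤ × ℤ) : ‖rx y v p‖ ≤ GG y p := by
  have h := ex_le (x := 0) hy hv p
  rw [ex_split] at h
  simpa using h

lemma rx_cont (y : ℝ) (p : ℤ × ℤ) : Continuous fun v : ℝ => rx y v p := by
  unfold rx
  fun_prop

/-- the coefficients -/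
noncomputable def cc (f : ZMod 5 → ℂ) (y : ℝ) (p : ℤ × ℤ) : ℂ :=
  ∫ v in (0 : ℝ)..PP, √y * (f (cls p) * rx y v p) * cexp (I * t0 * v)

lemma norm_exp_I (v : ℝ) : ‖cexp (I * t0 * v)‖ = 1 := by
  have : I * t0 * v = ((t0 * v : ℝ) : ℂ) * I := by push_cast; ring
  rw [this, Complex.norm_exp_ofReal_mul_I]

lemma mem_le {v : ℝ} (hv : v ∈ Set.uIoc 0 PP) : |v| ≤ PP := by
  rw [Set.uIoc_of_le PP_pos.le] at hv
  rw [abs_of_pos hv.1]
  exact hv.2

lemma cc_le (f : ZMod 5 → ℂ) {C : ℝ} (hC : ∀ a, ‖f a‖ ≤ C) {y : ℝ} (hy : 0 < y) (p : ℤ × ℤ) :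
    ‖cc f y p‖ ≤ √y * (C * GG y p) * PP := by
  unfold cc
  have h := intervalIntegral.norm_integral_le_of_norm_le_const (a := 0) (b := PP)
    (C := √y * (C * GG y p)) (f := fun v => √y * (f (cls p) * rx y v p) * cexp (I * t0 * v)) ?_
  · rwa [sub_zero, abs_of_pos PP_pos] at h
  · intro v hv
    rw [norm_mul, norm_mul, norm_mul, norm_exp_I, mul_one, Complex.norm_of_nonneg (Real.sqrt_nonneg y)]
    refine mul_le_mul_of_nonneg_left ?_ (Real.sqrt_nonneg y)
    exact mul_le_mul (hC _) (rx_le hy (mem_le hv) p) (norm_nonneg _)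
      ((norm_nonneg _).trans (hC 0))

lemma GG_nonneg (y : ℝ) (p : ℤ × ℤ) : 0 ≤ GG y p := by
  unfold GG
  positivity

lemma GG_sum {y : ℝ} (hy : 0 < y) : Summable (GG y) :=
  summable_gauss (by positivity)

lemma f_bdd (f : ZMod 5 → ℂ) : ∃ C : ℝ, ∀ a, ‖f a‖ ≤ C := ⟨∑ a, ‖f a‖, fun a =>
  Finset.single_le_sum (f := fun a => ‖f a‖) (fun _ _ => norm_nonneg _) (Finset.mem_univ a)⟩

/-- the Fourier expansion -/
lemma FF_hasSum (f : ZMod 5 → ℂ) (x : ℝ) {y : ℝ} (hy : 0 < y) :
    HasSum (fun p : ℤ × ℤ => cexp (2 * π * I * nm p / 5 * x) * cc f y p)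
      (FF f ((x : ℂ) + y * I)) := by
  obtain ⟨C, hC⟩ := f_bdd f
  have hC0 : 0 ≤ C := (norm_nonneg _).trans (hC 0)
  have e2 : ((x : ℂ) + y * I).im = y := by simp
  have hterm : ∀ (p : ℤ × ℤ) (v : ℝ), √y * (f (cls p) * ex ((x : ℂ) + y * I) v p) *
      cexp (I * t0 * v) = cexp (2 * π * I * nm p / 5 * x) *
        (√y * (f (cls p) * rx y v p) * cexp (I * t0 * v)) := by
    intro p v
    rw [ex_split]
    ring
  have h := intervalIntegral.hasSum_integral_of_dominated_convergence (μ := volume) (a := 0)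
    (b := PP) (F := fun (p : ℤ × ℤ) (v : ℝ) => √y * (f (cls p) * ex ((x : ℂ) + y * I) v p) *
      cexp (I * t0 * v)) (f := fun v => Th f ((x : ℂ) + y * I) v * cexp (I * t0 * v))
    (fun p _ => √y * (C * GG y p)) ?_ ?_ ?_ ?_ ?_
  · have h3 : (fun p : ℤ × ℤ => cexp (2 * π * I * nm p / 5 * x) * cc f y p) =
        fun p : ℤ × ℤ => ∫ v in (0 : ℝ)..PP, √y * (f (cls p) * ex ((x : ℂ) + y * I) v p) *
          cexp (I * t0 * v) := by
      funext p
      unfold cc
      rw [← intervalIntegral.integral_const_mul]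
      exact intervalIntegral.integral_congr fun v _ => (hterm p v).symm
    rw [h3]
    exact h
  · intro p
    have h4 : (fun v : ℝ => √y * (f (cls p) * ex ((x : ℂ) + y * I) v p) * cexp (I * t0 * v)) =
        fun v : ℝ => cexp (2 * π * I * nm p / 5 * x) *
        (√y * (f (cls p) * rx y v p) * cexp (I * t0 * v)) := funext fun v => hterm p v
    rw [h4]
    have h5 := rx_cont y p
    exact (by fun_prop : Continuous fun v : ℝ => cexp (2 * π * I * nm p / 5 * x) *
        (√y * (f (cls p) * rx y v p) * cexp (I * t0 * v))).aestronglyMeasurable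
  · intro p
    refine Filter.Eventually.of_forall fun v hv => ?_
    rw [norm_mul, norm_mul, norm_mul, norm_exp_I, mul_one,
      Complex.norm_of_nonneg (Real.sqrt_nonneg y)]
    refine mul_le_mul_of_nonneg_left ?_ (Real.sqrt_nonneg y)
    exact mul_le_mul (hC _) (ex_le hy (mem_le hv) p) (norm_nonneg _) hC0
  · exact Filter.Eventually.of_forall fun v _ => ((GG_sum hy).mul_left C).mul_left _
  · exact intervalIntegrable_const
  · refine Filter.Eventually.of_forall fun v _ => ?_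
    refine HasSum.mul_right _ ?_
    unfold Th
    rw [e2]
    exact (summable_f (z := (x : ℂ) + y * I) (by rw [e2]; exact hy) v f).hasSum.mul_left _

lemma cc_zero (f : ZMod 5 → ℂ) (y : ℝ) : cc f y 0 = 0 := by
  unfold cc
  have h1 : ∀ v : ℝ, √y * (f (cls 0) * rx y v 0) * cexp (I * t0 * v) =
      (√y * f (cls 0)) * cexp (I * t0 * v) := by
    intro v
    have h2 : rx y v 0 = 1 := by
      have e1 : Pool.Agent.Y672.DM.em 0 = 0 := by simp [Pool.Agent.Y672.DM.em]
      have e2 : Pool.Agent.Y672.DM.em' 0 = 0 := by simp [Pool.Agent.Y672.DM.em']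
      unfold rx
      rw [e1, e2]
      simp
    rw [h2]
    ring
  rw [intervalIntegral.integral_congr fun v _ => h1 v, intervalIntegral.integral_const_mul]
  have h3 : (I * t0 : ℂ) ≠ 0 := mul_ne_zero I_ne_zero (by exact_mod_cast t0_ne)
  rw [integral_exp_mul_complex h3]
  have h4 : (I * t0 * PP : ℂ) = 2 * π * I := by
    have h5 : ((t0 * PP : ℝ) : ℂ) = ((2 * π : ℝ) : ℂ) := by rw [t0_PP]
    push_cast at h5
    rw [mul_assoc, h5]
    ring
  rw [h4, Complex.exp_two_pi_mul_I]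
  simp

lemma int_zero (x0 : ℝ) {k : ℤ} (hk : k ≠ 0) :
    ∫ x in x0..(x0 + 5), cexp (2 * π * I * k / 5 * x) = 0 := by
  have h3 : (2 * π * I * k / 5 : ℂ) ≠ 0 := by
    have h4 : (k : ℂ) ≠ 0 := by exact_mod_cast hk
    have h5 : (π : ℂ) ≠ 0 := by exact_mod_cast Real.pi_ne_zero
    exact div_ne_zero (mul_ne_zero (mul_ne_zero (mul_ne_zero two_ne_zero h5) I_ne_zero) h4)
      (by norm_num)
  rw [integral_exp_mul_complex h3]
  have h6 : (2 * π * I * k / 5 * ((x0 + 5 : ℝ) : ℂ) : ℂ) =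
      2 * π * I * k / 5 * x0 + k * (2 * π * I) := by
    push_cast
    ring
  rw [h6, Complex.exp_add, Complex.exp_int_mul_two_pi_mul_I, mul_one, sub_self, zero_div]

theorem FF_const (f : ZMod 5 → ℂ) (x0 : ℝ) {y : ℝ} (hy : 0 < y) :
    ∫ x in x0..(x0 + 5), FF f ((x : ℂ) + y * Complex.I) = 0 := by
  obtain ⟨C, hC⟩ := f_bdd f
  have h := intervalIntegral.hasSum_integral_of_dominated_convergence (μ := volume) (a := x0)
    (b := x0 + 5) (F := fun (p : ℤ × ℤ) (x : ℝ) => cexp (2 * π * I * nm p / 5 * x) * cc f y p)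
    (f := fun x : ℝ => FF f ((x : ℂ) + y * Complex.I))
    (fun p _ => √y * (C * GG y p) * PP) ?_ ?_ ?_ ?_ ?_
  · refine h.unique ?_
    have h2 : (fun p : ℤ × ℤ => ∫ x in x0..(x0 + 5),
        cexp (2 * π * I * nm p / 5 * x) * cc f y p) = fun _ => (0 : ℂ) := by
      funext p
      rw [intervalIntegral.integral_mul_const]
      by_cases hp : nm p = 0
      · rw [nm_eq_zero hp, cc_zero, mul_zero]
      · rw [int_zero x0 hp, zero_mul]
    rw [h2]
    exact hasSum_zero
  · intro p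
    exact (by fun_prop : Continuous fun x : ℝ =>
      cexp (2 * π * I * nm p / 5 * x) * cc f y p).aestronglyMeasurable
  · intro p
    refine Filter.Eventually.of_forall fun x _ => ?_
    have h1 : (2 * π * I * nm p / 5 * x : ℂ) = ((2 * π * nm p / 5 * x : ℝ) : ℂ) * I := by
      push_cast
      ring
    rw [norm_mul, h1, Complex.norm_exp_ofReal_mul_I, one_mul]
    exact cc_le f hC hy p
  · exact Filter.Eventually.of_forall fun v _ =>
      (((GG_sum hy).mul_left C).mul_left _).mul_right _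
  · exact intervalIntegrable_const
  · exact Filter.Eventually.of_forall fun x _ => FF_hasSum f x hy

end Pool.Agent.Y96.DMF
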